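import Pool.Agent.N990.EJ.Stm

open MeasureTheory
open Pool.Agent.N988.EA

namespace Pool.Agent.N982.EJ

theorem act_cont {n : ℕ} (τ : Bool → Bool) (s : Vert 2 n → Bool) :
    Continuous fun J : Edge 2 n → ℝ => act J τ s := by
  unfold act
  fun_prop

theorem Z_pos {n : ℕ} (J : Edge 2 n → ℝ) (τ : Bool → Bool) : 0 < Z J τ := by
  unfold Z
  exact Finset.sum_pos (fun s _ => Real.exp_pos _) Finset.univ_nonempty

theorem Z_cont {n : ℕ} (τ : Bool → Bool) : Continuous fun J : Edge 2 n → ℝ => Z J τ := by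
  unfold Z
  exact continuous_finsetSum _ fun s _ => Real.continuous_exp.comp (act_cont τ s)

theorem gw_cont {n : ℕ} (τ : Bool → Bool) (s : Vert 2 n → Bool) :
    Continuous fun J : Edge 2 n → ℝ => Pool.Agent.N990.EJ.gw J τ s := by
  unfold Pool.Agent.N990.EJ.gw
  exact (Real.continuous_exp.comp (act_cont τ s)).div (Z_cont τ) fun J => (Z_pos J τ).ne'

theorem t_gwf : Pool.Agent.N990.EJ.S_GWF := by
  intro n
  refine ⟨?_, ?_, gw_cont, fun τ s => (gw_cont τ s).measurable⟩
  · intro J τ s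
    exact div_nonneg (Real.exp_pos _).le (Z_pos J τ).le
  · intro J τ
    unfold Pool.Agent.N990.EJ.gw
    rw [← Finset.sum_div]
    exact div_self (Z_pos J τ).ne'

end Pool.Agent.N982.EJ
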